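import Mathlib
import Pool.Agent.T2H18.Affine

/-!
# Maps close to affine maps at one small scale force a diffeomorphism

A closed connected smooth 4-manifold `M` and a closed simply connected smooth 4-manifold `N` are
given as smooth submanifolds of Euclidean spaces.  If some map `g : M → N`, continuous or not, is at
one sufficiently small scale `r`, around every point, within `ε a r` of an affine map whose linear
part has norm at most `C a` and expands tangent vectors by the factor `a` at least, where
`ε < 3 π / 16 = 0.589...` and `C` is arbitrary, then there is a diffeomorphism uniformly close to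
`g`, and it is homotopic to `g` if `g` is continuous.
-/

set_option autoImplicit false

open scoped ContDiff Manifold

noncomputable section

namespace Pool.Agent.Results.MP_cb9bff_gt.AffineDiffeo

/-- Euclidean space -/
abbrev E (n : ℕ) := EuclideanSpace ℝ (Fin n)

section defs

variable {V H : Type} [NormedAddCommGroup V] [NormedSpace ℝ V] [TopologicalSpace H]
  (I : ModelWithCorners ℝ V H) {M N : Type} [TopologicalSpace M] [ChartedSpace H M]
  [TopologicalSpace N] [ChartedSpace H N] {W W' : Type} [NormedAddCommGroup W] [NormedSpace ℝ W]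
  [NormedAddCommGroup W'] [NormedSpace ℝ W']

/-- `j` is a smooth injective immersion of the manifold `M` into the normed space `W`. -/
def IsSmoothEmb (j : M → W) : Prop :=
  ContMDiff I 𝓘(ℝ, W) ∞ j ∧ Function.Injective j ∧
    ∀ x, Function.Injective (mfderiv I 𝓘(ℝ, W) j x)

/-- Some smooth diffeomorphism from `M` to `N` is `η`-close to `g`, distances in `N` being measured
after the map `i` into `W`, and it is homotopic to `g` if `g` is continuous. -/
def HasDiffeoNear (i : N → W) (g : M → N) (η : ℝ) : Prop :=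
  ∃ Φ : Diffeomorph I I M N ∞,
    (∀ hg : Continuous g, ContinuousMap.Homotopic ⟨g, hg⟩ ⟨Φ, Φ.continuous⟩) ∧
    ∀ x, ‖i (Φ x) - i (g x)‖ ≤ η

/-- The linear map `T` expands every vector tangent to `j M` at `j x` by the factor `a` at least. -/
def ExpandsAt (j : M → W) (x : M) (T : W →L[ℝ] W') (a : ℝ) : Prop :=
  ∀ (u : TangentSpace I x) (v : W), v = mfderiv I 𝓘(ℝ, W) j x u → a * ‖v‖ ≤ ‖T v‖

/-- On the set of points at distance at most `r` from any point `x` of `M`, the map `g` differs by
at most `ε * a * r` from an affine map whose linear part `T` has norm at most `C * a` and expands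
tangent vectors at `x` by the factor `a` at least, for some `a > 0` (depending on `x`) with
`a * r ≤ δ`. -/
def NearAffineGen (j : M → W) (i : N → W') (g : M → N) (ε C r δ : ℝ) : Prop :=
  ∀ x : M, ∃ a : ℝ, 0 < a ∧ a * r ≤ δ ∧ ∃ (T : W →L[ℝ] W') (b : W'), ‖T‖ ≤ C * a ∧
    ExpandsAt I j x T a ∧
    ∀ y : M, ‖j y - j x‖ ≤ r → ‖i (g y) - b - T (j y - j x)‖ ≤ ε * a * r

end defs

section dim4

variable {M N : Type} [TopologicalSpace M] [ChartedSpace (E 4) M] [TopologicalSpace N]
  [ChartedSpace (E 4) N] {m n : ℕ}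

variable (M) in
/-- `M` is a compact connected Hausdorff smooth 4-manifold. -/
def IsClosed4 : Prop := T2Space M ∧ CompactSpace M ∧ ConnectedSpace M ∧ IsManifold (𝓡 4) ∞ M

/-- `j` is a smooth injective immersion of the 4-manifold `M` into a Euclidean space. -/
def Emb4 (j : M → E m) : Prop := IsSmoothEmb (𝓡 4) j

/-- `NearAffineGen` for 4-manifolds in Euclidean spaces. -/
def NearAffine (j : M → E m) (i : N → E n) (g : M → N) (ε C r δ : ℝ) : Prop :=
  NearAffineGen (𝓡 4) j i g ε C r δ

/-- Some smooth diffeomorphism from the 4-manifold `M` to the 4-manifold `N` is `η`-close to `g`,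
and homotopic to `g` if `g` is continuous. -/
def Diffeo4Near (i : N → E n) (g : M → N) (η : ℝ) : Prop := HasDiffeoNear (𝓡 4) i g η

end dim4

theorem result (ε C : ℝ) (hε : ε < 3 * Real.pi / 16)
    (M N : Type) [TopologicalSpace M] [ChartedSpace (E 4) M] [TopologicalSpace N]
    [ChartedSpace (E 4) N] (hM : IsClosed4 M) (hN : IsClosed4 N) (hN1 : SimplyConnectedSpace N)
    (m n : ℕ) (j : M → E m) (i : N → E n) (hj : Emb4 j) (hi : Emb4 i) (η : ℝ) (hη : 0 < η) :
    ∃ δ : ℝ, 0 < δ ∧ ∀ r : ℝ, 0 < r → r ≤ δ → ∀ g : M → N,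
      NearAffine j i g ε C r δ → Diffeo4Near i g η := by
  obtain ⟨_, _, _, _⟩ := hM
  obtain ⟨_, _, _, _⟩ := hN
  have hε' : max ε 0 < 3 * Real.pi / 16 := max_lt hε (by positivity)
  obtain ⟨e, κ₁, he, he1, hκ₁, hκ₁', hconst⟩ := T2H18.exists_const_affine hε' (max C 0)
  obtain ⟨δ, hδ, h⟩ := T2H18.affine_coarse (M := M) (N := N) (le_max_right ε 0) (le_max_right C 0)
    hκ₁ hκ₁' he he1 hconst (j := j) (ι := i) ⟨hj.1, hj.2.1, hj.2.2⟩ ⟨hi.1, hi.2.1, hi.2.2⟩ hη
  refine ⟨δ, hδ, fun r hr hrδ g hg => h r hr hrδ g fun x => ?_⟩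
  obtain ⟨a, ha, har, T, b, hT, hexp, hy⟩ := hg x
  refine ⟨a, ha, har, T, b, hT.trans (mul_le_mul_of_nonneg_right (le_max_left C 0) ha.le), ?_, ?_⟩
  · rintro v ⟨u, hu⟩
    exact hexp u v hu.symm
  · intro y hyr
    refine (hy y hyr).trans ?_
    have := mul_le_mul_of_nonneg_right (le_max_left ε 0) (mul_pos ha hr).le
    linarith

end Pool.Agent.Results.MP_cb9bff_gt.AffineDiffeo
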