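import Mathlib
import Pool.Agent.T2H18.Osc

/-!
# Lipschitz maps with non-degenerate mean derivative are close to diffeomorphisms

A closed connected smooth 4-manifold `M` and a closed simply connected smooth 4-manifold `N` are
given as smooth submanifolds of Euclidean spaces.  If `g : M → N` is locally Lipschitz and if the
mean of its (almost everywhere defined) derivative over all sufficiently small balls near a point
is bounded below as a linear map, for every point of `M`, then there are diffeomorphisms `M → N`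
arbitrarily uniformly close to `g` (and homotopic to `g`).  The same holds near the points where the
derivative is bounded below by `a` almost everywhere and has mean oscillation at most `θ a` over all
small balls, for some `θ < 1`; this covers locally bi-Lipschitz maps whose derivative has vanishing
mean oscillation.
-/

set_option autoImplicit false

open MeasureTheory Metric
open scoped ContDiff Manifold NNReal

noncomputable section

namespace Pool.Agent.Results.MP_cb9bff_gt.MeanDeriv

/-- Euclidean space -/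
abbrev E (n : ℕ) := EuclideanSpace ℝ (Fin n)

section defs

variable {V H : Type} [NormedAddCommGroup V] [NormedSpace ℝ V] [TopologicalSpace H]
  (I : ModelWithCorners ℝ V H) {M N : Type} [TopologicalSpace M] [ChartedSpace H M]
  [TopologicalSpace N] [ChartedSpace H N] {W : Type} [NormedAddCommGroup W] [NormedSpace ℝ W]

/-- `j` is a smooth injective immersion of the manifold `M` into the normed space `W`. -/
def IsSmoothEmb (j : M → W) : Prop :=
  ContMDiff I 𝓘(ℝ, W) ∞ j ∧ Function.Injective j ∧
    ∀ x, Function.Injective (mfderiv I 𝓘(ℝ, W) j x)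

/-- `B` is a smooth parametrisation of `M` near `x`, centred at `0`, and the derivative of `j ∘ B`
at `0` preserves norms. -/
def IsNormalParam (j : M → W) (x : M) (B : V → M) : Prop :=
  IsLocalDiffeomorphAt 𝓘(ℝ, V) I ∞ B 0 ∧ B 0 = x ∧ ∀ v, ‖fderiv ℝ (fun q => j (B q)) 0 v‖ = ‖v‖

/-- Some smooth diffeomorphism from `M` to `N` is `η`-close to `g`, distances in `N` being measured
after the map `i` into `W`, and it is homotopic to `g` if `g` is continuous. -/
def HasDiffeoNear (i : N → W) (g : M → N) (η : ℝ) : Prop :=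
  ∃ Φ : Diffeomorph I I M N ∞,
    (∀ hg : Continuous g, ContinuousMap.Homotopic ⟨g, hg⟩ ⟨Φ, Φ.continuous⟩) ∧
    ∀ x, ‖i (Φ x) - i (g x)‖ ≤ η

variable [MeasureSpace V]

/-- The mean derivative of `f` over every ball with centre in the `R`-ball about `0` and radius
less than `R` stretches all vectors by at least `c`. -/
def MeanNondeg (f : V → W) (c R : ℝ) : Prop :=
  ∀ p ∈ ball (0 : V) R, ∀ ρ : ℝ, 0 < ρ → ρ < R → ∀ v : V,
    c * ‖v‖ ≤ ‖⨍ q in ball p ρ, fderiv ℝ f q v‖

/-- The derivative of `f` stretches all vectors by at least `a` at almost every point near `0`, and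
its mean oscillation over every ball with centre in the `R`-ball about `0` and radius less than `R`
is at most `θ a`. -/
def SmallOsc (f : V → W) (a θ R : ℝ) : Prop :=
  (∀ᵐ q : V, q ∈ ball (0 : V) R → ∀ v : V, a * ‖v‖ ≤ ‖fderiv ℝ f q v‖) ∧
  ∀ p ∈ ball (0 : V) R, ∀ ρ : ℝ, 0 < ρ → ρ < R →
    ⨍ q in ball p ρ, ‖fderiv ℝ f q - ⨍ t in ball p ρ, fderiv ℝ f t‖ ≤ θ * a

/-- `f` is Lipschitz near `0` and satisfies `MeanNondeg` with some `c > 0` or `SmallOsc` with some
`a > 0` and `θ < 1`. -/
def GoodAt (f : V → W) : Prop :=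
  ∃ (R : ℝ) (L : ℝ≥0), 0 < R ∧ LipschitzOnWith L f (ball (0 : V) R) ∧
    ((∃ c : ℝ, 0 < c ∧ MeanNondeg f c R) ∨ ∃ a θ : ℝ, 0 < a ∧ θ < 1 ∧ SmallOsc f a θ R)

end defs

section dim4

variable {M N : Type} [TopologicalSpace M] [ChartedSpace (E 4) M] [TopologicalSpace N]
  [ChartedSpace (E 4) N] {m n : ℕ}

variable (M) in
/-- `M` is a compact connected Hausdorff smooth 4-manifold. -/
def IsClosed4 : Prop := T2Space M ∧ CompactSpace M ∧ ConnectedSpace M ∧ IsManifold (𝓡 4) ∞ M

/-- `j` is a smooth injective immersion of the 4-manifold `M` into a Euclidean space. -/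
def Emb4 (j : M → E m) : Prop := IsSmoothEmb (𝓡 4) j

/-- For some normalised parametrisation `B` of `M` near `x`, the map `i ∘ g ∘ B` is good at `0`. -/
def GoodMapAt (j : M → E m) (i : N → E n) (g : M → N) (x : M) : Prop :=
  ∃ B : E 4 → M, IsNormalParam (𝓡 4) j x B ∧ GoodAt (fun q => i (g (B q)))

/-- Some smooth diffeomorphism from the 4-manifold `M` to the 4-manifold `N` is `η`-close to `g`,
and homotopic to `g` if `g` is continuous. -/
def Diffeo4Near (i : N → E n) (g : M → N) (η : ℝ) : Prop := HasDiffeoNear (𝓡 4) i g η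

end dim4

theorem result (M N : Type) [TopologicalSpace M] [ChartedSpace (E 4) M] [TopologicalSpace N]
    [ChartedSpace (E 4) N] (hM : IsClosed4 M) (hN : IsClosed4 N) (hs : SimplyConnectedSpace N)
    (m n : ℕ) (j : M → E m) (i : N → E n) (hj : Emb4 j) (hi : Emb4 i) (g : M → N)
    (hg : ∀ x, GoodMapAt j i g x) (η : ℝ) (hη : 0 < η) : Diffeo4Near i g η := by
  obtain ⟨_, _, _, _⟩ := hM
  obtain ⟨_, _, _, _⟩ := hN
  refine T2H18.mean_crit (j := j) (ι := i) ⟨hj.1, hj.2.1, hj.2.2⟩ ⟨hi.1, hi.2.1, hi.2.2⟩ g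
    (fun x => ?_) hη
  obtain ⟨B, ⟨hB1, hB2, hB3⟩, R, L, hR, hL, h⟩ := hg x
  rcases h with ⟨c, hc, h⟩ | ⟨a, θ, ha, hθ, h1, h2⟩
  · exact ⟨B, c, L, R, hc, hR, hB1, hB2, hB3, hL, fun p hp r hr hrR w =>
      T2H18.mean_of_avg hr hc.le (h p hp r hr hrR w)⟩
  · have hc : 0 < a - θ * a := by nlinarith
    have hsub : ball (0 : E 4) (R / 2) ⊆ ball 0 R := ball_subset_ball (by linarith)
    refine ⟨B, a - θ * a, L, R / 2, hc, half_pos hR, hB1, hB2, hB3, hL.mono hsub,
      fun p hp r hr hrR w => T2H18.mean_of_avg hr hc.le ?_⟩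
    have hsub2 : ball p r ⊆ ball (0 : E 4) R := by
      intro q hq
      rw [mem_ball] at hq hp ⊢
      linarith [dist_triangle q p 0]
    apply T2H18.avg_of_osc hr (hL.mono hsub2) _ (h2 p (hsub hp) r hr (by linarith)) w
    filter_upwards [h1] with q hq hqb
    exact hq (hsub2 hqb)

end Pool.Agent.Results.MP_cb9bff_gt.MeanDeriv
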