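import Mathlib
import Pool.Agent.T2H18.Coarse

/-!
# Maps of small-scale distortion ratio below 1.436 force a diffeomorphism

A closed connected smooth 4-manifold `M` and a closed simply connected smooth 4-manifold `N` are
given as smooth submanifolds of Euclidean spaces.  If some map `g : M → N`, continuous or not, is at
one sufficiently small scale `r`, around every point, a similarity up to the ratio `lam` (with a
factor that may depend on the point) and an error `κ r`, where
`lam ^ 2 * (256 - 9 * π ^ 2) < 256 + 9 * π ^ 2`, that is `lam < 1.4362...`, then there is a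
diffeomorphism uniformly close to `g`, and it is homotopic to `g` if `g` is continuous.
-/

set_option autoImplicit false

open scoped ContDiff Manifold

noncomputable section

namespace Pool.Agent.Results.MP_cb9bff_gt.RatioDiffeo

/-- Euclidean space -/
abbrev E (n : ℕ) := EuclideanSpace ℝ (Fin n)

section defs

variable {V H : Type} [NormedAddCommGroup V] [NormedSpace ℝ V] [TopologicalSpace H]
  (I : ModelWithCorners ℝ V H) {M N : Type} [TopologicalSpace M] [ChartedSpace H M]
  [TopologicalSpace N] [ChartedSpace H N] {W : Type} [NormedAddCommGroup W] [NormedSpace ℝ W]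

/-- `j` is a smooth injective immersion of the manifold `M` into the normed space `W`. -/
def IsSmoothEmb (j : M → W) : Prop :=
  ContMDiff I 𝓘(ℝ, W) ∞ j ∧ Function.Injective j ∧
    ∀ x, Function.Injective (mfderiv I 𝓘(ℝ, W) j x)

/-- Some smooth diffeomorphism from `M` to `N` is `η`-close to `g`, distances in `N` being measured
after the map `i` into `W`, and it is homotopic to `g` if `g` is continuous. -/
def HasDiffeoNear (i : N → W) (g : M → N) (η : ℝ) : Prop :=
  ∃ Φ : Diffeomorph I I M N ∞,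
    (∀ hg : Continuous g, ContinuousMap.Homotopic ⟨g, hg⟩ ⟨Φ, Φ.continuous⟩) ∧
    ∀ x, ‖i (Φ x) - i (g x)‖ ≤ η

end defs

section dim4

variable {M N : Type} [TopologicalSpace M] [ChartedSpace (E 4) M] [TopologicalSpace N]
  [ChartedSpace (E 4) N] {m n : ℕ}

variable (M) in
/-- `M` is a compact connected Hausdorff smooth 4-manifold. -/
def IsClosed4 : Prop := T2Space M ∧ CompactSpace M ∧ ConnectedSpace M ∧ IsManifold (𝓡 4) ∞ M

/-- `j` is a smooth injective immersion of the 4-manifold `M` into a Euclidean space. -/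
def Emb4 (j : M → E m) : Prop := IsSmoothEmb (𝓡 4) j

/-- On the set of points at distance at most `r` from any point `x` of `M`, the map `g` distorts
distances by factors between `a` and `a * lam`, up to an error `a * κ * r`, for some `a > 0`
(depending on `x`) with `a * r ≤ δ`. -/
def NearSimilar (j : M → E m) (i : N → E n) (g : M → N) (lam κ r δ : ℝ) : Prop :=
  ∀ x : M, ∃ a : ℝ, 0 < a ∧ a * r ≤ δ ∧ ∀ y z : M, ‖j y - j x‖ ≤ r → ‖j z - j x‖ ≤ r →
    a * (‖j y - j z‖ - κ * r) ≤ ‖i (g y) - i (g z)‖ ∧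
    ‖i (g y) - i (g z)‖ ≤ a * (lam * ‖j y - j z‖ + κ * r)

/-- Some smooth diffeomorphism from the 4-manifold `M` to the 4-manifold `N` is `η`-close to `g`,
and homotopic to `g` if `g` is continuous. -/
def Diffeo4Near (i : N → E n) (g : M → N) (η : ℝ) : Prop := HasDiffeoNear (𝓡 4) i g η

end dim4

theorem result (lam : ℝ) (hlam : lam ^ 2 * (256 - 9 * Real.pi ^ 2) < 256 + 9 * Real.pi ^ 2) :
    ∃ κ : ℝ, 0 < κ ∧
    ∀ (M N : Type) [TopologicalSpace M] [ChartedSpace (E 4) M] [TopologicalSpace N]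
      [ChartedSpace (E 4) N], IsClosed4 M → IsClosed4 N → SimplyConnectedSpace N →
      ∀ (m n : ℕ) (j : M → E m) (i : N → E n), Emb4 j → Emb4 i →
      ∀ η : ℝ, 0 < η → ∃ δ : ℝ, 0 < δ ∧ ∀ r : ℝ, 0 < r → r ≤ δ → ∀ g : M → N,
        NearSimilar j i g lam κ r δ → Diffeo4Near i g η := by
  have hlam' : (max lam 1) ^ 2 * (256 - 9 * Real.pi ^ 2) < 256 + 9 * Real.pi ^ 2 := by
    rcases max_choice lam 1 with h | h
    · rw [h]
      exact hlam
    · rw [h]
      have := Real.pi_pos
      nlinarith [sq_nonneg Real.pi, mul_pos this this]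
  obtain ⟨κ₂, e, η₁, β, hκ₂, he, he1, hη₁, hη₁1, hβ, hTh⟩ := T2H18.exists_const hlam'
  have hl1 : 1 ≤ max lam 1 := le_max_right _ _
  have hl0 : 0 < max lam 1 := by linarith
  refine ⟨κ₂ / 12, by positivity, ?_⟩
  rintro M N _ _ _ _ ⟨_, _, _, _⟩ ⟨_, _, _, _⟩ _ m n j i hj hi η hη
  obtain ⟨δ, hδ, h⟩ := T2H18.ratio_coarse (M := M) (N := N) (κ := κ₂ / 12)
    (κ₁ := min (1 / 2) (κ₂ / (8 * max lam 1))) hl1 (by positivity) (by positivity)
    (min_le_left _ _) hκ₂ (by
      have h1 : min (1 / 2) (κ₂ / (8 * max lam 1)) ≤ κ₂ / (8 * max lam 1) := min_le_right _ _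
      have h2 : 2 * max lam 1 * min (1 / 2) (κ₂ / (8 * max lam 1)) ≤
          2 * max lam 1 * (κ₂ / (8 * max lam 1)) := mul_le_mul_of_nonneg_left h1 (by positivity)
      have h3 : 2 * max lam 1 * (κ₂ / (8 * max lam 1)) = κ₂ / 4 := by
        field_simp
        norm_num
      linarith) he he1
    hη₁ hη₁1 hβ hTh (j := j) (ι := i) ⟨hj.1, hj.2.1, hj.2.2⟩ ⟨hi.1, hi.2.1, hi.2.2⟩ hη
  refine ⟨δ, hδ, fun r hr hrδ g hg => h r hr hrδ g fun x => ?_⟩
  obtain ⟨a, ha, har, hyz⟩ := hg x
  refine ⟨a, ha, har, fun y z hy hz => ⟨(hyz y z hy hz).1, (hyz y z hy hz).2.trans ?_⟩⟩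
  apply mul_le_mul_of_nonneg_left _ ha.le
  have := mul_le_mul_of_nonneg_right (le_max_left lam 1) (norm_nonneg (j y - j z))
  linarith

end Pool.Agent.Results.MP_cb9bff_gt.RatioDiffeo
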