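import Mathlib
import Pool.Agent.T2H18.RegD

/-!
# Maps with non-degenerate linear regression at one small scale force a diffeomorphism

A closed connected smooth 4-manifold `M` and a closed simply connected smooth 4-manifold `N` are
given as smooth submanifolds of Euclidean spaces, and `μ` is a measure on `M` with continuous
positive densities in smooth parametrisations (for instance the Riemannian volume).  For every
`c > 0` there is a scale below which the following holds.  If the covariance, over the `r`-ball
about any point `x`, of the position and of a measurable map `g : M → N` is bounded below in all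
tangent directions by the fraction `c` of its trivial upper bound, then there is a diffeomorphism
uniformly close to `g`, and it is homotopic to `g` if `g` is continuous.
-/

set_option autoImplicit false

open MeasureTheory
open scoped ContDiff Manifold RealInnerProductSpace

noncomputable section

namespace Pool.Agent.Results.MP_cb9bff_gt.Regression

/-- Euclidean space -/
abbrev E (n : ℕ) := EuclideanSpace ℝ (Fin n)

section defs

variable {V H : Type} [NormedAddCommGroup V] [NormedSpace ℝ V] [TopologicalSpace H]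
  (I : ModelWithCorners ℝ V H) {M N : Type} [TopologicalSpace M] [ChartedSpace H M]
  [TopologicalSpace N] [ChartedSpace H N] {W W' : Type} [NormedAddCommGroup W]
  [InnerProductSpace ℝ W] [NormedAddCommGroup W'] [NormedSpace ℝ W']

/-- `j` is a smooth injective immersion of the manifold `M` into the normed space `W`. -/
def IsSmoothEmb (j : M → W) : Prop :=
  ContMDiff I 𝓘(ℝ, W) ∞ j ∧ Function.Injective j ∧
    ∀ x, Function.Injective (mfderiv I 𝓘(ℝ, W) j x)

/-- Some smooth diffeomorphism from `M` to `N` is `η`-close to `g`, distances in `N` being measured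
after the map `i` into `W`, and it is homotopic to `g` if `g` is continuous. -/
def HasDiffeoNear (i : N → W) (g : M → N) (η : ℝ) : Prop :=
  ∃ Φ : Diffeomorph I I M N ∞,
    (∀ hg : Continuous g, ContinuousMap.Homotopic ⟨g, hg⟩ ⟨Φ, Φ.continuous⟩) ∧
    ∀ x, ‖i (Φ x) - i (g x)‖ ≤ η

/-- The measure `μ` on the manifold `M` has a continuous positive density in every smooth
parametrisation of an open subset of `M` by the model space `V`. -/
def IsSmoothMeasure [MeasureSpace V] [MeasurableSpace M] (μ : Measure M) : Prop :=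
  ∀ B : V → M, Function.Injective B → (∀ q, IsLocalDiffeomorphAt 𝓘(ℝ, V) I ∞ B q) →
    ∃ D : V → ℝ, Continuous D ∧ (∀ q, 0 < D q) ∧
      ∀ S : Set V, MeasurableSet S → μ (B '' S) = ∫⁻ q in S, ENNReal.ofReal (D q)

/-- the points of `M` at distance at most `r` from `x`, measured after the map `j` -/
def nearSet (j : M → W) (r : ℝ) (x : M) : Set M := {y | ‖j y - j x‖ ≤ r}

/-- For every point `x` of `M` there is `s ∈ (0, δ]` such that the map `F` differs from `F x` by at
most `s` at the points at distance at most `r` from `x`, and such that the integral over these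
points `y` of `⟪j y - j x, w⟫ (F y - F x)` has norm at least `c * r * μ(ball) * s * ‖w‖`, for every
vector `w` tangent to `j M` at `j x`. -/
def Regress [MeasurableSpace M] (μ : Measure M) (j : M → W) (F : M → W') (c r δ : ℝ) : Prop :=
  ∀ x : M, ∃ s : ℝ, 0 < s ∧ s ≤ δ ∧ (∀ y ∈ nearSet j r x, ‖F y - F x‖ ≤ s) ∧
    ∀ (u : TangentSpace I x) (w : W), w = mfderiv I 𝓘(ℝ, W) j x u →
      c * r * μ.real (nearSet j r x) * s * ‖w‖ ≤
        ‖∫ y in nearSet j r x, ⟪j y - j x, w⟫ • (F y - F x) ∂μ‖

end defs

section dim4

variable {M N : Type} [TopologicalSpace M] [ChartedSpace (E 4) M] [TopologicalSpace N]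
  [ChartedSpace (E 4) N] {m n : ℕ}

variable (M) in
/-- `M` is a compact connected Hausdorff smooth 4-manifold. -/
def IsClosed4 : Prop := T2Space M ∧ CompactSpace M ∧ ConnectedSpace M ∧ IsManifold (𝓡 4) ∞ M

/-- `j` is a smooth injective immersion of the 4-manifold `M` into a Euclidean space. -/
def Emb4 (j : M → E m) : Prop := IsSmoothEmb (𝓡 4) j

/-- `IsSmoothMeasure` for 4-manifolds -/
def SmoothMeasure4 [MeasurableSpace M] (μ : Measure M) : Prop := IsSmoothMeasure (𝓡 4) μ

/-- `Regress` for the map `i ∘ g` between 4-manifolds in Euclidean spaces -/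
def Regress4 [MeasurableSpace M] (μ : Measure M) (j : M → E m) (i : N → E n) (g : M → N)
    (c r δ : ℝ) : Prop :=
  Regress (𝓡 4) μ j (fun x => i (g x)) c r δ

/-- Some smooth diffeomorphism from the 4-manifold `M` to the 4-manifold `N` is `η`-close to `g`,
and homotopic to `g` if `g` is continuous. -/
def Diffeo4Near (i : N → E n) (g : M → N) (η : ℝ) : Prop := HasDiffeoNear (𝓡 4) i g η

end dim4

theorem result (M N : Type) [TopologicalSpace M] [ChartedSpace (E 4) M] [MeasurableSpace M]
    [BorelSpace M] [TopologicalSpace N] [ChartedSpace (E 4) N] (hM : IsClosed4 M)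
    (hN : IsClosed4 N) (hsc : SimplyConnectedSpace N) (m n : ℕ) (j : M → E m) (i : N → E n)
    (hj : Emb4 j) (hi : Emb4 i) (μ : Measure M) (hμ : SmoothMeasure4 μ) (c : ℝ) (hc : 0 < c)
    (η : ℝ) (hη : 0 < η) :
    ∃ δ : ℝ, 0 < δ ∧ ∀ r : ℝ, 0 < r → r ≤ δ → ∀ g : M → N, Measurable (fun x => i (g x)) →
      Regress4 μ j i g c r δ → Diffeo4Near i g η := by
  obtain ⟨_, _, _, _⟩ := hM
  obtain ⟨_, _, _, _⟩ := hN
  obtain ⟨δ, hδ, h⟩ := T2H18.reg_diffeo (M := M) (N := N) hc (j := j) (ι := i)
    ⟨hj.1, hj.2.1, hj.2.2⟩ ⟨hi.1, hi.2.1, hi.2.2⟩ (μ := μ) hμ hη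
  refine ⟨δ, hδ, fun r hr hrδ g hgm hg => h r hr hrδ g hgm fun x => ?_⟩
  obtain ⟨s, hs, hsδ, h1, h2⟩ := hg x
  refine ⟨s, hs, hsδ, h1, ?_⟩
  rintro _ ⟨u, rfl⟩
  exact h2 u _ rfl

end Pool.Agent.Results.MP_cb9bff_gt.Regression
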